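import Mathlib

set_option autoImplicit false

namespace Pool.Agent.Results.MP_b82347_co.UnionQ1

open SimpleGraph

/-- A graph with vertex set inside `U` (given as a subgraph of the complete graph on `U`) is
`k`-critical if its chromatic number is `k` and every proper subgraph has smaller chromatic
number. -/
def IsCritical {U : Type} (A : (⊤ : SimpleGraph U).Subgraph) (k : ℕ) : Prop :=
  A.coe.chromaticNumber = (k : ℕ∞) ∧
    ∀ B : (⊤ : SimpleGraph U).Subgraph, B < A → B.coe.chromaticNumber < (k : ℕ∞)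

/-- `f k l` is the supremum of the chromatic number of the union of a `k`-critical graph and
an `l`-critical graph, whose finite vertex sets may overlap arbitrarily. -/
noncomputable def f (k l : ℕ) : ℕ∞ :=
  ⨆ (n : ℕ) (A : (⊤ : SimpleGraph (Fin n)).Subgraph) (B : (⊤ : SimpleGraph (Fin n)).Subgraph)
    (_ : IsCritical A k) (_ : IsCritical B l), (A ⊔ B).coe.chromaticNumber

theorem colorable_of_fun {V : Type*} {G : SimpleGraph V} {q : ℕ} (c : V → Fin q)
    (h : ∀ a b, G.Adj a b → c a ≠ c b) : G.Colorable q :=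
  ⟨Coloring.mk c (fun {a b} hab => h a b hab)⟩

theorem exists_fun_of_colorable {V : Type*} {G : SimpleGraph V} {q : ℕ} (h : G.Colorable q) :
    ∃ c : V → Fin q, ∀ a b, G.Adj a b → c a ≠ c b := by
  obtain ⟨C⟩ := h
  exact ⟨C, fun a b hab => C.valid hab⟩

theorem two_col_ne {U : Type*} (K : SimpleGraph U) (β : U → Fin 2)
    (hβ : ∀ a b, K.Adj a b → β a ≠ β b) (x z : U) (h : ¬ K.Reachable x z) :
    ∃ β' : U → Fin 2, (∀ a b, K.Adj a b → β' a ≠ β' b) ∧ β' x ≠ β' z := by
  classical
  by_cases hxz : β x = β z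
  · refine ⟨fun w => if K.Reachable x w then 1 - β w else β w, ?_, ?_⟩
    · intro a b hab
      by_cases ha : K.Reachable x a
      · have hb : K.Reachable x b := ha.trans hab.reachable
        simp only [if_pos ha, if_pos hb]
        have := hβ a b hab
        intro h1
        apply this
        omega
      · have hb : ¬ K.Reachable x b := fun hb => ha (hb.trans hab.symm.reachable)
        simp only [if_neg ha, if_neg hb]
        exact hβ a b hab
    · simp only [if_pos (Reachable.refl x), if_neg h]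
      omega
  · exact ⟨β, hβ, hxz⟩

/-- In a graph that is not bipartite but becomes bipartite after deleting any edge, all
degrees are at most two. -/
theorem deg_le_two {U : Type*} (B : SimpleGraph U) (hB0 : ¬ B.Colorable 2)
    (hB1 : ∀ x y, B.Adj x y → (B.deleteEdges {s(x, y)}).Colorable 2)
    (v a b c : U) (ha : B.Adj v a) (hb : B.Adj v b) (hc : B.Adj v c) :
    a = b ∨ a = c ∨ b = c := by
  classical
  by_contra hcon
  push Not at hcon
  obtain ⟨hab, hac, hbc⟩ := hcon
  let K := B.deleteEdges {s(v, a)}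
  have hK : K.Colorable 2 := hB1 v a ha
  have hreach : K.Reachable v a := by
    by_contra hnr
    obtain ⟨β, hβ⟩ := exists_fun_of_colorable hK
    obtain ⟨β', hβ', hne⟩ := two_col_ne K β hβ v a hnr
    apply hB0
    refine colorable_of_fun β' ?_
    intro p q hpq
    by_cases h : s(p, q) = s(v, a)
    · rw [Sym2.eq_iff] at h
      rcases h with ⟨h1, h2⟩ | ⟨h1, h2⟩
      · rw [h1, h2]; exact hne
      · rw [h1, h2]; exact hne.symm
    · exact hβ' p q (by rw [deleteEdges_adj]; exact ⟨hpq, by simpa using h⟩)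
  obtain ⟨P, hP⟩ := hreach.exists_isPath
  -- parity
  have heven : Even P.length := by
    obtain ⟨C⟩ := hK
    let C' : K.Coloring Bool := recolorOfEquiv K finTwoEquiv C
    rw [C'.even_length_iff_congr P]
    by_contra hne
    apply hB0
    have hne' : C' v ≠ C' a := by
      intro h; apply hne; rw [h]
    have : B.Coloring Bool := Coloring.mk C' (by
      intro p q hpq
      by_cases h : s(p, q) = s(v, a)
      · rw [Sym2.eq_iff] at h
        rcases h with ⟨h1, h2⟩ | ⟨h1, h2⟩
        · rw [h1, h2]; exact hne'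
        · rw [h1, h2]; exact hne'.symm
      · exact C'.valid (by rw [deleteEdges_adj]; exact ⟨hpq, by simpa using h⟩))
    have h2 := this.colorable
    simpa using h2
  cases P with
  | nil => exact ha.ne rfl
  | @cons _ y _ h p =>
    rw [Walk.cons_isPath_iff] at hP
    obtain ⟨c', hc'adj, hc'a, hc'y⟩ : ∃ c', B.Adj v c' ∧ c' ≠ a ∧ c' ≠ y := by
      by_cases hby : b = y
      · exact ⟨c, hc, hac.symm, fun h1 => hbc (hby.trans h1.symm)⟩
      · exact ⟨b, hb, hab.symm, hby⟩
    have hedge : ∀ e ∈ (Walk.cons h p).edges, e ∈ (B.deleteEdges {s(v, c')}).edgeSet := by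
      intro e he
      have heB : e ∈ B.edgeSet := by
        have h1 := (Walk.cons h p).edges_subset_edgeSet he
        have h2 : K ≤ B := deleteEdges_le _
        exact edgeSet_mono h2 h1
      rw [edgeSet_deleteEdges]
      refine ⟨heB, ?_⟩
      rw [Set.mem_singleton_iff]
      intro hevc
      rw [Walk.edges_cons, List.mem_cons] at he
      rcases he with he | he
      · rw [hevc, Sym2.eq_iff] at he
        rcases he with ⟨_, h2⟩ | ⟨h1, h2⟩
        · exact hc'y h2
        · exact hc'adj.ne h2.symm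
      · rw [hevc] at he
        exact hP.2 (Walk.fst_mem_support_of_mem_edges p he)
    let P' : (B.deleteEdges {s(v, c')}).Walk v a := (Walk.cons h p).transfer _ hedge
    have hlen : P'.length = (Walk.cons h p).length := Walk.length_transfer _ _
    have hav : (B.deleteEdges {s(v, c')}).Adj a v := by
      rw [deleteEdges_adj]
      refine ⟨ha.symm, ?_⟩
      rw [Set.mem_singleton_iff, Sym2.eq_iff]
      rintro (⟨h1, _⟩ | ⟨h1, _⟩)
      · exact ha.ne h1.symm
      · exact hc'a h1.symm
    have h3 := two_colorable_iff_forall_loop_even.1 (hB1 v c' hc'adj) a (Walk.cons hav P')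
    rw [Walk.length_cons, hlen] at h3
    rw [Nat.even_add_one] at h3
    exact h3 heven

/-- Two paths starting with the same edge in a graph of maximum degree two are comparable. -/
theorem comp {U : Type*} (B : SimpleGraph U)
    (hdeg : ∀ v a b c, B.Adj v a → B.Adj v b → B.Adj v c → a = b ∨ a = c ∨ b = c)
    {v z1 : U} (p : B.Walk v z1) :
    ∀ {z2 : U} (q : B.Walk v z2) (u : U), p.IsPath → q.IsPath → B.Adj v u →
      u ∉ p.support → u ∉ q.support → z1 ∈ q.support ∨ z2 ∈ p.support := by
  induction p with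
  | nil =>
    intro z2 q u _ _ _ _ _
    left
    exact q.start_mem_support
  | @cons v v' z1 h p ih =>
    intro z2 q u hp hq hu hup huq
    cases q with
    | nil => right; exact Walk.start_mem_support _
    | @cons _ v'' _ h' q =>
      rw [Walk.cons_isPath_iff] at hp hq
      rw [Walk.support_cons, List.mem_cons, not_or] at hup huq
      have hv' : v' ≠ u := fun h1 => hup.2 (h1 ▸ p.start_mem_support)
      have hv'' : v'' ≠ u := fun h1 => huq.2 (h1 ▸ q.start_mem_support)
      have heq : v' = v'' := by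
        rcases hdeg v v' v'' u h h' hu with h1 | h1 | h1
        · exact h1
        · exact absurd h1 hv'
        · exact absurd h1 hv''
      subst heq
      rcases ih q v hp.1 hq.1 h.symm hp.2 hq.2 with h1 | h1
      · left; rw [Walk.support_cons]; exact List.mem_cons_of_mem _ h1
      · right; rw [Walk.support_cons]; exact List.mem_cons_of_mem _ h1

/-- Restriction of `B` to a colour class. -/
def cls {U : Type*} {a : ℕ} (B : SimpleGraph U) (φ : U → Fin a) (i : Fin a) : SimpleGraph U where
  Adj u v := B.Adj u v ∧ φ u = i ∧ φ v = i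
  symm := ⟨fun _ _ h => ⟨h.1.symm, h.2.2, h.2.1⟩⟩
  loopless := ⟨fun _ h => h.1.ne rfl⟩

theorem cls_support {U : Type*} {a : ℕ} (B : SimpleGraph U) (φ : U → Fin a) (i : Fin a)
    {x z : U} (p : (cls B φ i).Walk x z) (hx : φ x = i) : ∀ w ∈ p.support, φ w = i := by
  induction p with
  | nil =>
    intro w hw
    rw [Walk.support_nil, List.mem_singleton] at hw
    rw [hw]; exact hx
  | cons h p ih =>
    intro w hw
    rw [Walk.support_cons, List.mem_cons] at hw
    rcases hw with hw | hw
    · rw [hw]; exact hx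
    · exact ih h.2.2 w hw

theorem claim {U : Type*} (A B : SimpleGraph U) (a : ℕ) (ha : 3 ≤ a)
    (hA1 : ∀ x y, A.Adj x y → (A.deleteEdges {s(x, y)}).Colorable a)
    (hB2 : ∀ w, (∃ w', B.Adj w w') →
      ∃ β : U → Fin 2, ∀ u v, u ≠ w → v ≠ w → B.Adj u v → β u ≠ β v)
    (hB3 : B.Colorable 3) (hcon : ¬ (A ⊔ B).Colorable (2 * a)) (x z : U) (hxz : A.Adj x z) :
    ∃ φ : U → Fin a, (∀ u v, A.Adj u v → s(u, v) ≠ s(x, z) → φ u ≠ φ v) ∧
      ∃ P : B.Walk x z, P.IsPath ∧ ∀ w ∈ P.support, φ w = φ x := by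
  classical
  obtain ⟨φ, hφ⟩ := exists_fun_of_colorable (hA1 x z hxz)
  have hφ' : ∀ u v, A.Adj u v → s(u, v) ≠ s(x, z) → φ u ≠ φ v := by
    intro u v huv hne
    apply hφ
    rw [deleteEdges_adj]
    exact ⟨huv, by simpa using hne⟩
  refine ⟨φ, hφ', ?_⟩
  by_cases hcase : ∃ i, ∀ u v, B.Adj u v → φ u = i
  · exfalso
    obtain ⟨i, hi⟩ := hcase
    obtain ⟨β, hβ⟩ := exists_fun_of_colorable hB3
    apply hcon
    let col : U → Option (Fin a ⊕ Fin 2) := fun w =>
      if w = x then none else if φ w = i ∧ β w = 1 then some (Sum.inr 0)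
      else if φ w = i ∧ β w = 2 then some (Sum.inr 1) else some (Sum.inl (φ w))
    have hcol : ∀ u v, (A ⊔ B).Adj u v → col u ≠ col v := by
      intro u v huv
      have huvne : u ≠ v := huv.ne
      by_cases hu : u = x
      · have hv : v ≠ x := fun h => huvne (hu.trans h.symm)
        simp only [col, if_pos hu, if_neg hv]
        split_ifs <;> simp
      · by_cases hv : v = x
        · simp only [col, if_pos hv, if_neg hu]
          split_ifs <;> simp
        · rcases huv with huv | huv
          · have h1 : s(u, v) ≠ s(x, z) := by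
              intro h
              rw [Sym2.eq_iff] at h
              rcases h with ⟨h1, _⟩ | ⟨_, h1⟩
              · exact hu h1
              · exact hv h1
            have h2 := hφ' u v huv h1
            simp only [col, if_neg hu, if_neg hv]
            split_ifs with h3 h4 h5 h6 h7 h8 <;>
              first
              | (exact absurd (h3.1.trans h4.1.symm) h2)
              | simp_all
          · have h1 := hi u v huv
            have h2 := hi v u huv.symm
            have h3 := hβ u v huv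
            simp only [col, if_neg hu, if_neg hv]
            have h4 : ∀ j : Fin 3, j = 0 ∨ j = 1 ∨ j = 2 := by decide
            rcases h4 (β u) with h5 | h5 | h5 <;> rcases h4 (β v) with h6 | h6 | h6 <;>
              simp_all
    have h1 : (A ⊔ B).Colorable (Fintype.card (Option (Fin a ⊕ Fin 2))) :=
      (Coloring.mk col (fun {u v} huv => hcol u v huv)).colorable
    refine h1.mono ?_
    rw [Fintype.card_option, Fintype.card_sum, Fintype.card_fin, Fintype.card_fin]
    omega
  · push Not at hcase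
    have hβ : ∀ i, ∃ β : U → Fin 2, ∀ u v, (cls B φ i).Adj u v → β u ≠ β v := by
      intro i
      obtain ⟨w, w', hww', hwi⟩ := hcase i
      obtain ⟨β, hβ⟩ := hB2 w ⟨w', hww'⟩
      refine ⟨β, ?_⟩
      intro u v huv
      apply hβ u v _ _ huv.1
      · intro h; apply hwi; rw [← h]; exact huv.2.1
      · intro h; apply hwi; rw [← h]; exact huv.2.2
    have hreach : (cls B φ (φ x)).Reachable x z := by
      by_contra hnr
      apply hcon
      choose β hβ using hβ
      obtain ⟨β', hβ', hne⟩ := two_col_ne (cls B φ (φ x)) (β (φ x)) (hβ (φ x)) x z hnr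
      let col : U → Fin a × Fin 2 := fun w => (φ w, if φ w = φ x then β' w else β (φ w) w)
      have hcol : ∀ u v, (A ⊔ B).Adj u v → col u ≠ col v := by
        intro u v huv heq
        have h1 : φ u = φ v := congrArg Prod.fst heq
        have h2 : (if φ u = φ x then β' u else β (φ u) u) =
          (if φ v = φ x then β' v else β (φ v) v) := congrArg Prod.snd heq
        rw [← h1] at h2
        rcases huv with huv | huv
        · by_cases h3 : s(u, v) = s(x, z)
          · rw [Sym2.eq_iff] at h3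
            rcases h3 with ⟨h4, h5⟩ | ⟨h4, h5⟩
            · rw [h4, h5] at h2
              simp only [if_true] at h2
              exact hne h2
            · have h6 : φ u = φ x := by rw [h1, h5]
              simp only [if_pos h6] at h2
              rw [h4, h5] at h2
              exact hne h2.symm
          · exact hφ' u v huv h3 h1
        · by_cases h6 : φ u = φ x
          · simp only [if_pos h6] at h2
            exact hβ' u v ⟨huv, h6, h1 ▸ h6⟩ h2
          · simp only [if_neg h6] at h2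
            exact hβ (φ u) u v ⟨huv, rfl, h1.symm⟩ h2
      have h1 : (A ⊔ B).Colorable (Fintype.card (Fin a × Fin 2)) :=
        (Coloring.mk col (fun {u v} huv => hcol u v huv)).colorable
      rw [Fintype.card_prod, Fintype.card_fin, Fintype.card_fin, mul_comm] at h1
      exact h1
    obtain ⟨P, hP⟩ := hreach.exists_isPath
    have hle : cls B φ (φ x) ≤ B := fun u v h => h.1
    refine ⟨P.mapLe hle, hP.mapLe hle, ?_⟩
    intro w hw
    rw [Walk.support_mapLe_eq_support] at hw
    exact cls_support B φ (φ x) P rfl w hw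

theorem pair_false {U : Type*} (A B : SimpleGraph U) (a : ℕ)
    (hdeg : ∀ v a b c, B.Adj v a → B.Adj v b → B.Adj v c → a = b ∨ a = c ∨ b = c)
    (x z z' y : U) (hz : A.Adj x z) (hz' : A.Adj x z') (hne : z ≠ z')
    (φ φ' : U → Fin a)
    (hφ : ∀ u v, A.Adj u v → s(u, v) ≠ s(x, z) → φ u ≠ φ v)
    (hφ' : ∀ u v, A.Adj u v → s(u, v) ≠ s(x, z') → φ' u ≠ φ' v)
    (h : B.Adj x y) (p : B.Walk y z) (p' : B.Walk y z')
    (hp : (Walk.cons h p).IsPath) (hp' : (Walk.cons h p').IsPath)
    (hs : ∀ w ∈ (Walk.cons h p).support, φ w = φ x)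
    (hs' : ∀ w ∈ (Walk.cons h p').support, φ' w = φ' x) : False := by
  rw [Walk.cons_isPath_iff] at hp hp'
  have hne1 : s(x, z') ≠ s(x, z) := by
    intro h1
    rw [Sym2.eq_iff] at h1
    rcases h1 with ⟨_, h2⟩ | ⟨h2, h3⟩
    · exact hne h2.symm
    · exact hne (h2 ▸ h3).symm
  rcases comp B hdeg p p' x hp.1 hp'.1 h.symm hp.2 hp'.2 with h1 | h1
  · have h2 := hs' z (by rw [Walk.support_cons]; exact List.mem_cons_of_mem _ h1)
    exact hφ' x z hz hne1.symm h2.symm
  · have h2 := hs z' (by rw [Walk.support_cons]; exact List.mem_cons_of_mem _ h1)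
    exact hφ x z' hz' hne1 h2.symm

theorem main {U : Type*} (A B : SimpleGraph U) (a : ℕ) (ha : 3 ≤ a)
    (hA1 : ∀ x y, A.Adj x y → (A.deleteEdges {s(x, y)}).Colorable a)
    (x z1 z2 z3 : U) (h1 : A.Adj x z1) (h2 : A.Adj x z2) (h3 : A.Adj x z3)
    (h12 : z1 ≠ z2) (h13 : z1 ≠ z3) (h23 : z2 ≠ z3)
    (hB0 : ¬ B.Colorable 2)
    (hB1 : ∀ x y, B.Adj x y → (B.deleteEdges {s(x, y)}).Colorable 2)
    (hB2 : ∀ w, (∃ w', B.Adj w w') →
      ∃ β : U → Fin 2, ∀ u v, u ≠ w → v ≠ w → B.Adj u v → β u ≠ β v)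
    (hB3 : B.Colorable 3) : (A ⊔ B).Colorable (2 * a) := by
  by_contra hcon
  have hdeg := fun v a b c => deg_le_two B hB0 hB1 v a b c
  obtain ⟨φ1, hφ1, P1, hP1, hs1⟩ := claim A B a ha hA1 hB2 hB3 hcon x z1 h1
  obtain ⟨φ2, hφ2, P2, hP2, hs2⟩ := claim A B a ha hA1 hB2 hB3 hcon x z2 h2
  obtain ⟨φ3, hφ3, P3, hP3, hs3⟩ := claim A B a ha hA1 hB2 hB3 hcon x z3 h3
  cases P1 with
  | nil => exact h1.ne rfl
  | @cons _ y1 _ e1 p1 =>
    cases P2 with
    | nil => exact h2.ne rfl
    | @cons _ y2 _ e2 p2 =>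
      cases P3 with
      | nil => exact h3.ne rfl
      | @cons _ y3 _ e3 p3 =>
        rcases hdeg x y1 y2 y3 e1 e2 e3 with h | h | h
        · subst h
          exact pair_false A B a hdeg x z1 z2 y1 h1 h2 h12 φ1 φ2 hφ1 hφ2 e1 p1 p2 hP1 hP2 hs1 hs2
        · subst h
          exact pair_false A B a hdeg x z1 z3 y1 h1 h3 h13 φ1 φ3 hφ1 hφ3 e1 p1 p3 hP1 hP3 hs1 hs3
        · subst h
          exact pair_false A B a hdeg x z2 z3 y2 h2 h3 h23 φ2 φ3 hφ2 hφ3 e2 p2 p3 hP2 hP3 hs2 hs3

theorem spanning_of_coe {U : Type} (C : (⊤ : SimpleGraph U).Subgraph) (q : ℕ)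
    (h : C.coe.Colorable (q + 1)) : C.spanningCoe.Colorable (q + 1) := by
  classical
  obtain ⟨c, hc⟩ := exists_fun_of_colorable h
  refine colorable_of_fun (fun w => if hw : w ∈ C.verts then c ⟨w, hw⟩ else 0) ?_
  intro u v huv
  have huv' : C.Adj u v := huv
  have hu := huv'.fst_mem
  have hv := huv'.snd_mem
  simp only [dif_pos hu, dif_pos hv]
  exact hc ⟨u, hu⟩ ⟨v, hv⟩ huv'

theorem coe_of_spanning {U : Type} (C : (⊤ : SimpleGraph U).Subgraph) (q : ℕ)
    (h : C.spanningCoe.Colorable q) : C.coe.Colorable q :=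
  h.of_hom (C.coeEmbeddingSpanningCoe.toHom)

theorem colorable_of_lt {V : Type*} {G : SimpleGraph V} {q : ℕ}
    (h : G.chromaticNumber < ((q + 1 : ℕ) : ℕ∞)) : G.Colorable q := by
  rw [← chromaticNumber_le_iff_colorable]
  have h1 : ((q + 1 : ℕ) : ℕ∞) = ((q : ℕ) : ℕ∞) + 1 := by push_cast; rfl
  rw [h1] at h
  exact ENat.lt_add_one_iff (ENat.natCast_ne_top _) |>.1 h

theorem crit_edge {U : Type} (A : (⊤ : SimpleGraph U).Subgraph) (q : ℕ)
    (hA : IsCritical A (q + 2)) (x y : U) (hxy : A.spanningCoe.Adj x y) :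
    (A.spanningCoe.deleteEdges {s(x, y)}).Colorable (q + 1) := by
  have hlt : A.deleteEdges {s(x, y)} < A := by
    refine lt_of_le_of_ne (Subgraph.deleteEdges_le _) ?_
    intro h
    have h1 : (A.deleteEdges {s(x, y)}).Adj x y := by rw [h]; exact hxy
    rw [Subgraph.deleteEdges_adj] at h1
    exact h1.2 rfl
  have h1 := spanning_of_coe _ q (colorable_of_lt (hA.2 _ hlt))
  rw [← Subgraph.deleteEdges_spanningCoe_eq] at h1
  exact h1

theorem crit_vert {U : Type} (A : (⊤ : SimpleGraph U).Subgraph) (q : ℕ)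
    (hA : IsCritical A (q + 2)) (w : U) (hw : w ∈ A.verts) :
    ∃ β : U → Fin (q + 1), ∀ u v, u ≠ w → v ≠ w → A.Adj u v → β u ≠ β v := by
  have hlt : A.deleteVerts {w} < A := by
    refine lt_of_le_of_ne Subgraph.deleteVerts_le ?_
    intro h
    have h1 : w ∈ (A.deleteVerts {w}).verts := by rw [h]; exact hw
    rw [Subgraph.deleteVerts_verts] at h1
    exact h1.2 rfl
  obtain ⟨β, hβ⟩ := exists_fun_of_colorable (spanning_of_coe _ q (colorable_of_lt (hA.2 _ hlt)))
  refine ⟨β, ?_⟩
  intro u v hu hv huv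
  apply hβ
  show (A.deleteVerts {w}).Adj u v
  rw [Subgraph.deleteVerts_adj]
  exact ⟨huv.fst_mem, hu, huv.snd_mem, hv, huv⟩

theorem crit_not {U : Type} (A : (⊤ : SimpleGraph U).Subgraph) (q : ℕ)
    (hA : IsCritical A (q + 2)) : ¬ A.coe.Colorable (q + 1) := by
  intro h
  have h1 := h.chromaticNumber_le
  rw [hA.1] at h1
  have h2 : q + 2 ≤ q + 1 := by exact_mod_cast h1
  omega

/-- The general bound: the union of a `k`-critical graph (`k ≥ 4`) and a `3`-critical graph
is `2 (k - 1)`-colourable. -/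
theorem union_bound {U : Type} (k : ℕ) (hk : 4 ≤ k) (A B : (⊤ : SimpleGraph U).Subgraph)
    (hA : IsCritical A k) (hB : IsCritical B 3) :
    (A ⊔ B).coe.Colorable (2 * (k - 1)) := by
  classical
  obtain ⟨q, rfl⟩ : ∃ q, k = q + 4 := ⟨k - 4, by omega⟩
  have hA' : IsCritical A ((q + 2) + 2) := hA
  have hB' : IsCritical B (1 + 2) := hB
  -- a vertex with three neighbours
  have hne : A.verts.Nonempty := by
    by_contra h
    rw [Set.not_nonempty_iff_eq_empty] at h
    apply crit_not A (q + 2) hA'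
    have : IsEmpty A.verts := by rw [h]; exact Set.isEmpty_coe_sort.2 rfl
    exact Colorable.of_isEmpty _
  obtain ⟨x, hx⟩ := hne
  obtain ⟨β, hβ⟩ := crit_vert A (q + 2) hA' x hx
  have hnb : ∀ j : Fin (q + 2 + 1), ∃ z, A.Adj x z ∧ β z = j := by
    intro j
    by_contra hcon
    push Not at hcon
    apply crit_not A (q + 2) hA'
    apply coe_of_spanning
    refine colorable_of_fun (fun w => if w = x then j else β w) ?_
    intro u v huv
    have huv' : A.Adj u v := huv
    by_cases hu : u = x
    · have hv : v ≠ x := fun h => huv.ne (hu.trans h.symm)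
      simp only [if_pos hu, if_neg hv]
      exact (hcon v (hu ▸ huv')).symm
    · by_cases hv : v = x
      · simp only [if_pos hv, if_neg hu]
        exact hcon u (hv ▸ huv'.symm)
      · simp only [if_neg hu, if_neg hv]
        exact hβ u v hu hv huv'
  obtain ⟨z1, h1, c1⟩ := hnb ⟨0, by omega⟩
  obtain ⟨z2, h2, c2⟩ := hnb ⟨1, by omega⟩
  obtain ⟨z3, h3, c3⟩ := hnb ⟨2, by omega⟩
  have h12 : z1 ≠ z2 := by
    intro h; rw [h, c2] at c1; simp at c1
  have h13 : z1 ≠ z3 := by
    intro h; rw [h, c3] at c1; simp at c1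
  have h23 : z2 ≠ z3 := by
    intro h; rw [h, c3] at c2; simp at c2
  have hcol : (A.spanningCoe ⊔ B.spanningCoe).Colorable (2 * (q + 3)) := by
    refine main A.spanningCoe B.spanningCoe (q + 3) (by omega)
      (fun x y hxy => crit_edge A (q + 2) hA' x y hxy) x z1 z2 z3 h1 h2 h3 h12 h13 h23 ?_
      (fun x y hxy => crit_edge B 1 hB' x y hxy) ?_ ?_
    · intro h
      exact crit_not B 1 hB' (coe_of_spanning _ _ h)
    · rintro w ⟨w', hw⟩
      have hw' : B.Adj w w' := hw
      obtain ⟨γ, hγ⟩ := crit_vert B 1 hB' w hw'.fst_mem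
      exact ⟨γ, fun u v hu hv huv => hγ u v hu hv huv⟩
    · apply spanning_of_coe B 2
      rw [← chromaticNumber_le_iff_colorable, hB.1]
  apply coe_of_spanning
  rw [← Subgraph.sup_spanningCoe] at hcol
  exact hcol

/-- For every `k ≥ 4` the maximum `f k 3` is at most `(k - 1) (3 - 1)`, one less than
conjectured; in particular the formula `f k l = (k - 1) (l - 1) + 1` fails. -/
theorem result :
    (∀ k : ℕ, 4 ≤ k → f k 3 ≤ (((k - 1) * (3 - 1) : ℕ) : ℕ∞)) ∧
    ¬ (∀ k l : ℕ, 2 ≤ k → 2 ≤ l → f k l = (((k - 1) * (l - 1) + 1 : ℕ) : ℕ∞)) := by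
  have h1 : ∀ k : ℕ, 4 ≤ k → f k 3 ≤ (((k - 1) * (3 - 1) : ℕ) : ℕ∞) := by
    intro k hk
    refine iSup_le fun n => iSup_le fun A => iSup_le fun B => iSup_le fun hA =>
      iSup_le fun hB => ?_
    have h := (union_bound k hk A B hA hB).chromaticNumber_le
    rw [mul_comm] at h
    exact h
  refine ⟨h1, ?_⟩
  intro h
  have h2 := h1 4 le_rfl
  rw [h 4 3 (by norm_num) (by norm_num)] at h2
  have h3 : (4 - 1) * (3 - 1) + 1 ≤ (4 - 1) * (3 - 1) := by exact_mod_cast h2
  omega

end Pool.Agent.Results.MP_b82347_co.UnionQ1
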